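import Pool.Agent.W845.DH.Stm

/-!
Project DH (helper845), part LOWD: the lower bound example.
-/

set_option autoImplicit false
open scoped Classical
open scoped BigOperators

namespace Pool.Agent.W977.DH

open Pool.Agent.W845.DH

theorem card_low (n a : ℕ) :
    ((Finset.univ : Finset (Fin n)).filter (fun v => v.val < a)).card ≤ a := by
  have h := Finset.card_le_card_of_injOn
    (s := (Finset.univ : Finset (Fin n)).filter (fun v => v.val < a)) (t := Finset.range a)
    (fun v => v.val) (by
      intro v hv
      simp only [Finset.coe_filter, Finset.mem_univ, true_and, Set.mem_ofPred_eq] at hv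
      simpa using hv) (by
      intro v _ w _ h
      exact Fin.ext h)
  simpa using h

theorem ham_card {n a : ℕ} (R : Finset (Fin n × Fin n))
    (h : HamD (fun u v => KD n a u v ∨ (u, v) ∈ R)) : n ≤ 2 * a + R.card := by
  obtain ⟨τ, hτ, _⟩ := h
  set L := (Finset.univ : Finset (Fin n)).filter (fun v => v.val < a) with hL
  have hLc : L.card ≤ a := card_low n a
  have hcov : (Finset.univ : Finset (Fin n)) ⊆
      (L ∪ L.image τ.symm) ∪ (Finset.univ.filter (fun v => (v, τ v) ∈ R)) := by
    intro v _
    rcases hτ v with h1 | h1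
    · rcases h1 with ⟨h2, _⟩ | ⟨h2, _⟩
      · refine Finset.mem_union_left _ (Finset.mem_union_left _ ?_)
        rw [hL, Finset.mem_filter]
        exact ⟨Finset.mem_univ _, h2⟩
      · refine Finset.mem_union_left _ (Finset.mem_union_right _ ?_)
        rw [Finset.mem_image]
        refine ⟨τ v, ?_, τ.symm_apply_apply v⟩
        rw [hL, Finset.mem_filter]
        exact ⟨Finset.mem_univ _, h2⟩
    · refine Finset.mem_union_right _ ?_
      rw [Finset.mem_filter]
      exact ⟨Finset.mem_univ _, h1⟩
  have h1 := Finset.card_le_card hcov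
  rw [Finset.card_univ, Fintype.card_fin] at h1
  have h2 : (L.image τ.symm).card ≤ L.card := Finset.card_image_le
  have h3 : (Finset.univ.filter (fun v => (v, τ v) ∈ R)).card ≤ R.card := by
    refine Finset.card_le_card_of_injOn (fun v => (v, τ v)) ?_ ?_
    · intro v hv
      simpa using hv
    · intro v _ w _ hvw
      exact (Prod.ext_iff.mp hvw).1
  have h4 := Finset.card_union_le (L ∪ L.image τ.symm)
    (Finset.univ.filter (fun v => (v, τ v) ∈ R))
  have h5 := Finset.card_union_le L (L.image τ.symm)
  omega

theorem deg_KD {n a : ℕ} (h : 2 * a < n) : Deg a (KD n a) := by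
  intro v
  have key : a ≤ (Finset.univ.filter (fun w => KD n a v w)).card := by
    by_cases hv : v.val < a
    · have := Finset.card_le_card_of_injOn (s := (Finset.univ : Finset (Fin a)))
        (t := Finset.univ.filter (fun w => KD n a v w))
        (fun i => (⟨i.val + a, by have := i.isLt; omega⟩ : Fin n)) (by
          intro i _
          simp only [Finset.coe_filter, Finset.mem_univ, true_and, Set.mem_ofPred_eq]
          exact Or.inl ⟨hv, by simp⟩) (by
          intro i _ j _ hij
          have h1 : i.val + a = j.val + a := congrArg Fin.val hij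
          exact Fin.ext (by omega))
      simpa using this
    · have := Finset.card_le_card_of_injOn (s := (Finset.univ : Finset (Fin a)))
        (t := Finset.univ.filter (fun w => KD n a v w))
        (fun i => (⟨i.val, by have := i.isLt; omega⟩ : Fin n)) (by
          intro i _
          simp only [Finset.coe_filter, Finset.mem_univ, true_and, Set.mem_ofPred_eq]
          exact Or.inr ⟨i.isLt, not_lt.mp hv⟩) (by
          intro i _ j _ hij
          have h1 : i.val = j.val := Fin.mk.inj_iff.mp hij
          exact Fin.ext h1)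
      simpa using this
  have hsymm : ∀ w, KD n a w v ↔ KD n a v w := by
    intro w
    unfold KD
    tauto
  constructor
  · unfold od
    exact_mod_cast key
  · unfold idg
    have : (Finset.univ.filter (fun w => KD n a w v)) = (Finset.univ.filter (fun w => KD n a v w)) := by
      apply Finset.filter_congr
      intro w _
      exact hsymm w
    rw [this]
    exact_mod_cast key

theorem EW_smul {α : Type} (E : Finset α) (p c : ℝ) (f : Finset α → ℝ) :
    EW E p (fun R => c * f R) = c * EW E p f := by
  unfold EW
  rw [Finset.mul_sum]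
  apply Finset.sum_congr rfl
  intro R _
  ring

theorem EW_sum {α β : Type} (E : Finset α) (p : ℝ) (B : Finset β) (f : β → Finset α → ℝ) :
    EW E p (fun R => ∑ e ∈ B, f e R) = ∑ e ∈ B, EW E p (f e) := by
  unfold EW
  rw [Finset.sum_comm]
  apply Finset.sum_congr rfl
  intro R _
  rw [Finset.mul_sum]

theorem EW_card_le {α : Type} (hE : S_EW) (E : Finset α) (p c : ℝ) (hp0 : 0 ≤ p) (hp1 : p ≤ 1)
    (H : Finset α → Prop) (hH : ∀ R ⊆ E, H R → c ≤ (R.card : ℝ)) :
    c * EW E p (fun R => if H R then 1 else 0) ≤ (E.card : ℝ) * p := by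
  obtain ⟨_, hmono, _, hone, _⟩ := hE
  rw [← EW_smul]
  have h1 : EW E p (fun R => c * (if H R then 1 else 0)) ≤
      EW E p (fun R => ∑ e ∈ E, (if e ∈ R then (1:ℝ) else 0)) := by
    refine hmono _ _ p _ _ hp0 hp1 ?_
    intro R hR
    have hs : ∑ e ∈ E, (if e ∈ R then (1:ℝ) else 0) = (R.card : ℝ) := by
      rw [← Finset.sum_filter]
      have : E.filter (fun e => e ∈ R) = R := by
        ext e
        rw [Finset.mem_filter]
        exact ⟨fun h => h.2, fun h => ⟨hR h, h⟩⟩
      rw [this]
      simp
    show _ * _ ≤ _
    rw [hs]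
    split_ifs with hh
    · have := hH R hR hh
      linarith
    · simp
  refine h1.trans ?_
  rw [EW_sum]
  have h2 : ∑ e ∈ E, EW E p (fun R => if e ∈ R then (1:ℝ) else 0) = ∑ e ∈ E, p := by
    apply Finset.sum_congr rfl
    intro e he
    exact hone _ _ p e he
  rw [h2, Finset.sum_const, nsmul_eq_mul]

theorem lowd : S_EW → S_LOWD := by
  intro hE n a p ha hp0 hp1
  refine ⟨deg_KD ha, ?_⟩
  refine (EW_card_le hE _ p _ hp0 hp1 _ ?_).trans ?_
  · intro R _ hH
    have h2 := ham_card R hH
    have h3 : (n : ℝ) ≤ 2 * a + R.card := by exact_mod_cast h2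
    linarith
  · rw [Finset.offDiag_card, Finset.card_univ, Fintype.card_fin]
    have h3 : ((n * n - n : ℕ) : ℝ) ≤ (n : ℝ) ^ 2 := by
      have : n * n - n ≤ n ^ 2 := by rw [pow_two]; exact Nat.sub_le _ _
      exact_mod_cast this
    rw [mul_comm p]
    exact mul_le_mul_of_nonneg_right h3 hp0

end Pool.Agent.W977.DH
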